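import Pool.Agent.Helper87.SF.FinalM

/-!
# A nonstandard model of `PA` without a Solovay family whose functions change value a computably
bounded number of times

The model is the generic completion: it is built from a generic sequence of conditions
`φ(c_0, …, c_{N-1})`, consistent with `PA`.
-/

set_option autoImplicit false

namespace Pool.Agent.Results.MP_1378ec_lc.NoBoundedChanges

open H97.PAS H87.SF

/-- There is a nonstandard model `A` of `PA` with universe `ℕ` such that for every Solovay family
`(t_n)` for `Th(A)` relative to `A` and every computable `h` there is `n ≥ 1` such that `t_n`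
changes value more than `h n` times. -/
theorem result : ∃ A : AStr ℕ, IsPA A ∧ A.Nonstandard ∧
    ∀ t : ℕ → ℕ → ℕ, SolovayFamily A t →
      ∀ h : ℕ → ℕ, Computable h → ∃ n ≥ 1, ¬ ChangesAtMost (h n) (t n) := final

end Pool.Agent.Results.MP_1378ec_lc.NoBoundedChanges
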